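import Pool.Agent.U744.MA.Eg
import Pool.Agent.K7.H83.MA.Main

/-! Refined colourings, positive densities, special integers. -/

set_option autoImplicit false
set_option linter.unusedSectionVars false

namespace Pool.Agent.U744.MA

open Finset Filter Topology
open Pool.Agent.K7.H83.MA

theorem exists_ref {r : ℕ} (c : ℕ → Fin r) (E : ℕ → Prop) {Q : ℕ} (hQ : 0 < Q) :
    ∃ (r' : ℕ) (c' : ℕ → Fin r'), ∀ p q, c' p = c' q →
      c p = c q ∧ (E p ↔ E q) ∧ p ≡ q [MOD Q] := by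
  classical
  refine ⟨_, fun p => Fintype.equivFin (Fin r × Bool × Fin Q)
    (c p, decide (E p), ⟨p % Q, Nat.mod_lt p hQ⟩), fun p q h => ?_⟩
  have h1 := (Fintype.equivFin _).injective h
  rw [Prod.mk.injEq, Prod.mk.injEq] at h1
  exact ⟨h1.1, decide_eq_decide.1 h1.2.1, Fin.mk.inj_iff.1 h1.2.2⟩

section

variable {r : ℕ} (c : ℕ → Fin r) (Q : ℕ)

theorem notE {E : ℕ → Prop} (hE : Spa E) (hc : ∀ p q, c p = c q → (E p ↔ E q)) {p : ℕ}
    (hp : Big c (c p)) : ¬ E p := by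
  classical
  intro h
  apply hp
  have h2 : Spa (fun q => c q = c p) := hE.mono fun q hq => (hc q p hq).2 h
  unfold Spa at h2
  refine h2.congr fun q => ?_
  by_cases h3 : c q = c p
  · rw [if_pos h3, if_pos h3]
  · rw [if_neg h3, if_neg h3]

theorem sp_one_prime {k p : ℕ} (hk : 0 < k) (h : sp c Q k = 1) (hp : p.Prime) (hpk : p ∣ k) :
    ¬ Sp c Q p := by
  classical
  intro hs
  obtain ⟨j, rfl⟩ := hpk
  have hj : 0 < j := Nat.pos_of_mul_pos_left hk
  rw [sp_mul c Q hp.pos hj, sp_prime c Q hp, if_pos hs] at h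
  have := Nat.dvd_one.1 (h ▸ Dvd.intro _ rfl : p ∣ 1)
  exact hp.one_lt.ne' this

theorem Sp_of_dvd_sp {k p : ℕ} (hk : 0 < k) (hp : p.Prime) (h : p ∣ sp c Q k) : Sp c Q p := by
  classical
  by_contra hs
  obtain ⟨j, hj⟩ := h
  have h0 := sp_pos c Q hk
  have hj0 : 0 < j := by
    rw [hj] at h0
    exact Nat.pos_of_mul_pos_left h0
  have h1 := sp_sp c Q hk
  rw [hj, sp_mul c Q hp.pos hj0, sp_prime c Q hp, if_neg hs, one_mul] at h1
  have h2 := Nat.le_of_dvd hj0 (sp_dvd c Q hj0)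
  rw [h1] at h2
  have h3 : 2 * j ≤ p * j := Nat.mul_le_mul_right j hp.two_le
  omega

theorem sp_self_of {n : ℕ} (hn : 0 < n) (h : ∀ p, p.Prime → p ∣ n → Sp c Q p) : sp c Q n = n := by
  classical
  have h1 : fr (Sp c Q) n = 1 := by
    unfold fr Pool.Agent.K7.H83.MA.ext
    refine Finset.prod_eq_one fun p hp => ?_
    have h1 := Nat.support_factorization n ▸ hp
    rw [Nat.mem_primeFactors] at h1
    simp only
    rw [if_pos (h p h1.1 h1.2.1), one_pow]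
  have h2 := prt_fr (Sp c Q) hn
  rw [h1, mul_one] at h2
  rw [sp_eq_prt]; exact h2.symm

theorem fix_of {H : Type*} [NormedAddCommGroup H] [InnerProductSpace ℂ H] [CompleteSpace H]
    {u : ℕ → H →L[ℂ] H} {x : H} {E : ℕ → Prop} (hE : Spa E)
    (hc : ∀ p q, c p = c q → (E p ↔ E q))
    (hx : ∀ k, 0 < k → k ≡ 1 [MOD Q] → (∀ p, p.Prime → p ∣ k → ¬ E p) → u k x = x)
    {k : ℕ} (hk : 0 < k) (hk1 : k ≡ 1 [MOD Q]) (hs : sp c Q k = 1) : u k x = x := by
  refine hx k hk hk1 fun p hp hpk => ?_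
  have h1 := sp_one_prime c Q hk hs hp hpk
  refine notE c hE hc ?_
  by_contra h2
  exact h1 (Or.inl h2)

theorem col_same (hc : ∀ p q, c p = c q → p ≡ q [MOD Q]) {p q : ℕ} (hp : p.Prime) (hq : q.Prime)
    (hpq : c p = c q) (hb : Big c (c p)) : sp c Q p = sp c Q q ∧ gam c Q p = gam c Q q := by
  classical
  have key : ∀ p q : ℕ, p.Prime → q.Prime → c p = c q → Big c (c p) → Sp c Q p → p = q := by
    intro p q hp hq hpq hb hs
    have h1 : p ∣ Q := by
      rcases hs with hs | hs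
      · exact absurd hb hs
      · exact hs
    have h2 := (hc p q hpq).dvd_iff h1
    exact (Nat.prime_dvd_prime_iff_eq hp hq).1 (h2.1 dvd_rfl)
  by_cases h1 : Sp c Q p
  · have := key p q hp hq hpq hb h1
    subst this
    exact ⟨rfl, rfl⟩
  by_cases h2 : Sp c Q q
  · have := key q p hq hp hpq.symm (hpq ▸ hb) h2
    subst this
    exact ⟨rfl, rfl⟩
  refine ⟨by rw [sp_prime c Q hp, sp_prime c Q hq, if_neg h1, if_neg h2], ?_⟩
  unfold gam
  refine Prod.ext ?_ ?_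
  · simp only
    congr 1
    rw [un_prime c Q hp, un_prime c Q hq, dif_pos ⟨cop_of c Q hp h1, h1⟩,
      dif_pos ⟨cop_of c Q hq h2, h2⟩]
    apply Units.ext
    rw [ZMod.coe_unitOfCoprime, ZMod.coe_unitOfCoprime]
    exact (ZMod.natCast_eq_natCast_iff _ _ _).2 (hc p q hpq)
  · funext i
    simp only
    rw [Om_prime c Q i hp, Om_prime c Q i hq, hpq]
    simp only [h1, h2]

theorem lab_mono {N N' : ℕ} (h : N ≤ N') (s : ℕ) (g : GG r Q) : lab c Q N s g ⊆ lab c Q N' s g := by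
  intro n hn
  rw [mem_lab] at hn ⊢
  exact ⟨⟨hn.1.1, hn.1.2.trans h⟩, hn.2⟩

theorem lab_card {s₀ : ℕ} (hs0 : 0 < s₀)
    (hs1 : sp c Q s₀ = s₀) (N : ℕ) (g : GG r Q) :
    (lab c Q N s₀ g).card = (lab c Q (N / s₀) 1 g).card := by
  have hs2 : gam c Q s₀ = 0 := by
    have := gam_sp c Q hs0
    rwa [hs1] at this
  have := lab_sum c Q (fun _ => 1) hs0 hs1 hs2 N g
  simpa using this

theorem lab_pos (hQ : 0 < Q) :
    ∃ d : ℝ, 0 < d ∧ Tendsto (fun N : ℕ => ((lab c Q N 1 0).card : ℝ) / N) atTop (𝓝 d) := by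
  classical
  have : NeZero Q := ⟨hQ.ne'⟩
  have hD := Nat.totient_pos.2 hQ
  have : NeZero (Nat.totient Q) := ⟨hD.ne'⟩
  choose d hd using fun g : GG r Q => lab_dens c Q 1 g
  obtain ⟨M, hM0, hME, hMc⟩ := good (spa_Sp c Q hQ) (1 / 2) (by norm_num)
  have hle : ∀ N : ℕ, (N : ℝ) / 2 ≤ M.divisors.card * ∑ g : GG r Q, ((lab c Q N 1 g).card : ℝ) := by
    intro N
    have h1 : ((Ioc 0 N).filter fun n => prt (Sp c Q) n ∣ M).card ≤
        ∑ s ∈ M.divisors, ∑ g : GG r Q, (lab c Q N s g).card := by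
      have h2 : ((Ioc 0 N).filter fun n => prt (Sp c Q) n ∣ M) ⊆
          M.divisors.biUnion fun s => (Finset.univ : Finset (GG r Q)).biUnion fun g =>
            lab c Q N s g := by
        intro n hn
        rw [mem_filter] at hn
        rw [mem_biUnion]
        refine ⟨sp c Q n, Nat.mem_divisors.2 ⟨hn.2, hM0.ne'⟩, ?_⟩
        rw [mem_biUnion]
        refine ⟨gam c Q n, Finset.mem_univ _, ?_⟩
        rw [mem_lab]
        exact ⟨mem_Ioc.1 hn.1, rfl, rfl⟩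
      refine (Finset.card_le_card h2).trans (Finset.card_biUnion_le.trans ?_)
      exact Finset.sum_le_sum fun s _ => Finset.card_biUnion_le
    have h3 : ∀ s, ∀ g : GG r Q, (lab c Q N s g).card ≤ (lab c Q N 1 g).card := by
      intro s g
      rcases (lab c Q N s g).eq_empty_or_nonempty with h0 | ⟨n₀, hn₀⟩
      · rw [h0]; simp
      · rw [mem_lab] at hn₀
        have hs0 : 0 < s := by rw [← hn₀.2.1]; exact sp_pos c Q hn₀.1.1
        have hs1 : sp c Q s = s := by rw [← hn₀.2.1]; exact sp_sp c Q hn₀.1.1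
        rw [lab_card c Q hs0 hs1]
        exact Finset.card_le_card (lab_mono c Q (Nat.div_le_self N s) 1 g)
    have h4 : ((Ioc 0 N).filter fun n => prt (Sp c Q) n ∣ M).card ≤
        M.divisors.card * ∑ g : GG r Q, (lab c Q N 1 g).card := by
      refine h1.trans ?_
      refine (Finset.sum_le_sum fun s _ => Finset.sum_le_sum fun g _ => h3 s g).trans ?_
      rw [Finset.sum_const, smul_eq_mul]
    have h5 := hMc N
    have h6 := Finset.card_filter_add_card_filter_not (s := Ioc 0 N) (fun n => prt (Sp c Q) n ∣ M)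
    rw [Nat.card_Ioc, Nat.sub_zero] at h6
    have h7 : (((Ioc 0 N).filter fun n => prt (Sp c Q) n ∣ M).card : ℝ) +
      (((Ioc 0 N).filter fun n => ¬ prt (Sp c Q) n ∣ M).card : ℝ) = N := by exact_mod_cast h6
    have h8 : (((Ioc 0 N).filter fun n => prt (Sp c Q) n ∣ M).card : ℝ) ≤
        M.divisors.card * ∑ g : GG r Q, ((lab c Q N 1 g).card : ℝ) := by exact_mod_cast h4
    linarith
  have hsum : (1 : ℝ) / 2 ≤ M.divisors.card * ∑ g : GG r Q, d g := by
    have h1 : Tendsto (fun N : ℕ => (M.divisors.card : ℝ) *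
        ∑ g : GG r Q, (((lab c Q N 1 g).card : ℝ) / N)) atTop
        (𝓝 (M.divisors.card * ∑ g : GG r Q, d g)) :=
      (tendsto_finsetSum _ fun g _ => hd g).const_mul _
    refine ge_of_tendsto h1 ?_
    filter_upwards [eventually_gt_atTop 0] with N hN
    have hN' : (0 : ℝ) < N := by exact_mod_cast hN
    rw [← Finset.sum_div, ← mul_div_assoc, le_div_iff₀ hN']
    have := hle N
    linarith
  obtain ⟨g, hg⟩ : ∃ g, 0 < d g := by
    by_contra hcon
    push Not at hcon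
    have h1 : ∑ g : GG r Q, d g ≤ 0 := Finset.sum_nonpos fun g _ => hcon g
    have h2 : (M.divisors.card : ℝ) * ∑ g : GG r Q, d g ≤ 0 :=
      mul_nonpos_of_nonneg_of_nonpos (Nat.cast_nonneg _) h1
    linarith
  obtain ⟨n₀, hn₀, hn₁, hn₂⟩ : ∃ n₀, 0 < n₀ ∧ sp c Q n₀ = 1 ∧ gam c Q n₀ = g := by
    obtain ⟨N, hN⟩ := ((hd g).eventually (lt_mem_nhds hg)).exists
    have h1 : (lab c Q N 1 g).Nonempty := by
      rw [Finset.nonempty_iff_ne_empty]
      intro h0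
      rw [h0] at hN
      simp at hN
    obtain ⟨n, hn⟩ := h1
    rw [mem_lab] at hn
    exact ⟨n, hn.1.1, hn.2.1, hn.2.2⟩
  have hpw : ∀ k : ℕ, sp c Q (n₀ ^ k) = 1 ∧ gam c Q (n₀ ^ k) = k • g := by
    intro k
    induction k with
    | zero => rw [pow_zero, sp_one, gam_one, zero_nsmul]; exact ⟨rfl, rfl⟩
    | succ k ih =>
      rw [pow_succ, sp_mul c Q (pow_pos hn₀ k) hn₀, gam_mul c Q (pow_pos hn₀ k) hn₀, ih.1, ih.2,
        hn₁, hn₂, succ_nsmul]
      exact ⟨rfl, rfl⟩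
  set b : ℕ := n₀ ^ (Nat.totient Q - 1) with hb
  have hb0 : 0 < b := pow_pos hn₀ _
  have hb1 : sp c Q b = 1 := (hpw _).1
  have hb2 : gam c Q b + g = 0 := by
    rw [hb, (hpw _).2, ← succ_nsmul, Nat.sub_add_cancel hD]
    exact GG_kill Q hQ g
  refine ⟨d 0, ?_, hd 0⟩
  have h1 : Tendsto (fun m : ℕ => ((lab c Q (b * m) 1 0).card : ℝ) / ((b * m : ℕ) : ℝ)) atTop
      (𝓝 (d 0)) := (hd 0).comp (tendsto_id.const_mul_atTop' hb0)
  have h2 : Tendsto (fun m : ℕ => ((lab c Q m 1 g).card : ℝ) / m * (b : ℝ)⁻¹) atTop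
      (𝓝 (d g * (b : ℝ)⁻¹)) := (hd g).mul_const _
  refine lt_of_lt_of_le (mul_pos hg (by positivity)) (le_of_tendsto_of_tendsto' h2 h1 fun m => ?_)
  have h3 : (lab c Q m 1 g).card ≤ (lab c Q (b * m) 1 0).card := by
    refine Finset.card_le_card_of_injOn (fun n => b * n) (fun n hn => ?_) (fun x _ y _ hxy => ?_)
    · rw [Finset.mem_coe, mem_lab] at hn
      beta_reduce
      rw [Finset.mem_coe, mem_lab]
      refine ⟨⟨Nat.mul_pos hb0 hn.1.1, Nat.mul_le_mul_left b hn.1.2⟩, ?_, ?_⟩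
      · rw [sp_mul c Q hb0 hn.1.1, hb1, hn.2.1]
      · rw [gam_mul c Q hb0 hn.1.1, hn.2.2, hb2]
    · exact Nat.eq_of_mul_eq_mul_left hb0 hxy
  have h4 : ((lab c Q m 1 g).card : ℝ) ≤ (lab c Q (b * m) 1 0).card := by exact_mod_cast h3
  push_cast
  rw [← div_eq_mul_inv, div_div, mul_comm (m : ℝ)]
  exact div_le_div_of_nonneg_right h4 (by positivity)

theorem lab_dens' {d : ℝ} (hd : 0 < d)
    (hd' : Tendsto (fun N : ℕ => ((lab c Q N 1 0).card : ℝ) / N) atTop (𝓝 d)) {s : ℕ} (hs0 : 0 < s)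
    (hs1 : sp c Q s = s) {d' : ℝ}
    (h : Tendsto (fun N : ℕ => ((lab c Q N s 0).card : ℝ) / N) atTop (𝓝 d')) : 0 < d' := by
  have h1 : Tendsto (fun m : ℕ => ((lab c Q (s * m) s 0).card : ℝ) / ((s * m : ℕ) : ℝ)) atTop
      (𝓝 d') := h.comp (tendsto_id.const_mul_atTop' hs0)
  have h2 : Tendsto (fun m : ℕ => ((lab c Q (s * m) s 0).card : ℝ) / ((s * m : ℕ) : ℝ)) atTop
      (𝓝 (d * (s : ℝ)⁻¹)) := by
    refine (hd'.mul_const ((s : ℝ)⁻¹)).congr fun m => ?_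
    rw [lab_card c Q hs0 hs1, Nat.mul_div_cancel_left m hs0]
    push_cast
    rw [← div_eq_mul_inv, div_div, mul_comm (m : ℝ)]
  rw [tendsto_nhds_unique h1 h2]
  have : (0 : ℝ) < s := by exact_mod_cast hs0
  positivity

open scoped Classical in
theorem exists_s (hQ : 0 < Q) (δ : ℝ) (hδ : 0 < δ) :
    ∃ s : ℕ, 0 < s ∧ sp c Q s = s ∧ Q ∣ s ∧
      ∀ N : ℕ, (((Ioc 0 N).filter fun n => ¬ sp c Q n ∣ s).card : ℝ) ≤ δ * N := by
  obtain ⟨M, hM0, hME, hMc⟩ := good (spa_Sp c Q hQ) δ hδ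
  refine ⟨M * Q, Nat.mul_pos hM0 hQ, ?_, Dvd.intro_left _ rfl, fun N => ?_⟩
  · rw [sp_mul c Q hM0 hQ, sp_self_of c Q hQ fun p _ hp => Or.inr hp, sp_eq_prt, hME]
  · refine le_trans (Nat.cast_le.2 (Finset.card_le_card ?_)) (hMc N)
    intro n hn
    rw [mem_filter] at hn ⊢
    refine ⟨hn.1, fun h => hn.2 ?_⟩
    rw [sp_eq_prt]
    exact h.mul_right Q

theorem sp_pow {s : ℕ} (hs0 : 0 < s) (hs1 : sp c Q s = s) (k : ℕ) : sp c Q (s ^ k) = s ^ k := by
  induction k with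
  | zero => rw [pow_zero, sp_one]
  | succ k ih => rw [pow_succ, sp_mul c Q (pow_pos hs0 k) hs0, ih, hs1]

theorem sum_one {s a : ℕ} (hsa : s ∣ a) (hQs : Q ∣ s) {m n : ℕ} (hm : 0 < m) (hn : 0 < n)
    (hm1 : sp c Q m = a) (hn1 : sp c Q n = 1) (hn2 : gam c Q n = 0) :
    m + n ≡ 1 [MOD Q] ∧ (sp c Q (m + n) ∣ s → sp c Q (m + n) = 1) := by
  have ham : a ∣ m := hm1 ▸ sp_dvd c Q hm
  constructor
  · have h1 : (n : ZMod Q) = 1 := by
      rw [res_eq c Q hn, hn1]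
      have h2 : un c Q n = 1 := congrArg Prod.fst hn2
      rw [h2]; simp
    have h2 : n ≡ 1 [MOD Q] := by
      rw [← ZMod.natCast_eq_natCast_iff, h1, Nat.cast_one]
    have h3 : m ≡ 0 [MOD Q] := (Nat.modEq_zero_iff_dvd).2 (hQs.trans (hsa.trans ham))
    have h4 := h3.add h2
    rwa [zero_add] at h4
  · intro h
    by_contra hne
    obtain ⟨p, hp, hpd⟩ := Nat.exists_prime_and_dvd hne
    have h1 : p ∣ m := (hpd.trans h).trans (hsa.trans ham)
    have h2 : p ∣ m + n := hpd.trans (sp_dvd c Q (by omega))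
    have h3 : p ∣ n := (Nat.dvd_add_right h1).1 h2
    exact sp_one_prime c Q hn hn1 hp h3 (Sp_of_dvd_sp c Q (by omega) hp hpd)

end

end Pool.Agent.U744.MA
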