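import Pool.Agent.U744.MA.Mn

/-! The upper bound for the correlations of the main term if the averages vanish. -/

set_option autoImplicit false
set_option linter.unusedSectionVars false

namespace Pool.Agent.U744.MA

open Finset Filter Topology MeasureTheory
open scoped InnerProductSpace ENNReal NNReal
open Pool.Agent.K7.H83.MA

variable {X : Type*} [MeasurableSpace X] [StandardBorelSpace X] {μ : Measure X}
  [IsProbabilityMeasure μ]
variable {r : ℕ} {c : ℕ → Fin r} {T : ℕ → X → X}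

/-- the part orthogonal to the nearly periodic vectors does not contribute -/
theorem tk_part (h : Sys c μ T) {Q : ℕ} (hcQ : ∀ p q, c p = c q → p ≡ q [MOD Q])
    {f : X → ℝ} (hf : UI f) {y : Lp ℂ 2 μ} (hy : ∀ z, Eg (koop μ T) z → ⟪z, y⟫_ℂ = 0) (a : ℕ) :
    Tendsto (fun N : ℕ => ((N : ℂ)⁻¹ * (N : ℂ)⁻¹) • ∑ i ∈ lab c Q N 1 0, ∑ j ∈ lab c Q N a 0,
      mulB μ (cx (wr T f i j)) (koop μ T (i + j) y)) atTop (𝓝 0) := by
  classical
  obtain ⟨i₀, hi₀⟩ := exists_big c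
  have hape := ap_of_orth c h.FG hy
  have hv : ApeS (fun k => koop μ T k y) := by
    intro Q hQ a
    refine (hape Q hQ a).congr fun N => ?_
    congr 1
    refine Finset.sum_congr ?_ fun _ _ => rfl
    ext k
    simp only [mem_filter]
  set W : ℕ → ℕ → Lp ℂ 2 μ →L[ℂ] Lp ℂ 2 μ := fun i j =>
    if (sp c Q i = 1 ∧ gam c Q i = 0) ∧ (sp c Q j = a ∧ gam c Q j = 0) then
      mulB μ (cx (wr T f i j)) else 0 with hWdef
  have hmain := tk_main (v := fun k => koop μ T k y) (D := ‖y‖)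
    (fun k hk => (koop_norm (h.mp k hk) y).le) hv hi₀ W (B := 1) zero_le_one
    (fun i j x hi hj => by
      simp only [hWdef]
      split_ifs
      · refine mulB_norm (wr_UI h hf hi hj).bm (fun p => ?_) x
        unfold cx
        rw [Complex.norm_real, Real.norm_of_nonneg ((wr_UI h hf hi hj).2 p).1]
        exact ((wr_UI h hf hi hj).2 p).2
      · rw [_root_.zero_apply, norm_zero]; positivity)
    (fun p q hp hq hpi hqi i j hi hj => by
      obtain ⟨e1, e2⟩ := col_same c Q hcQ hp hq (hpi.trans hqi.symm) (by rw [hpi]; exact hi₀)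
      have hij := Nat.mul_pos hi hj
      have hm : mulB μ (cx (wr T f (p * i) j)) = mulB μ (cx (wr T f (q * i) j)) := by
        refine mulB_congr (wr_UI h hf (Nat.mul_pos hp.pos hi) hj).bm
          (wr_UI h hf (Nat.mul_pos hq.pos hi) hj).bm ?_
        have hpq := h.fg p q hp hq (hpi.trans hqi.symm)
        filter_upwards [h.mul p i hp.pos hi, h.mul q i hq.pos hi, h.mul p (i * j) hp.pos hij,
          h.mul q (i * j) hq.pos hij, (h.mp i hi).quasiMeasurePreserving.ae hpq,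
          (h.mp (i * j) hij).quasiMeasurePreserving.ae hpq] with x e1 e2 e3 e4 e5 e6
        unfold cx wr
        rw [mul_assoc p i j, mul_assoc q i j, e1, e2, e3, e4, e5, e6]
      simp only [hWdef]
      rw [sp_mul c Q hp.pos hi, sp_mul c Q hq.pos hi, gam_mul c Q hp.pos hi, gam_mul c Q hq.pos hi,
        e1, e2, hm])
  refine hmain.congr fun N => ?_
  congr 1
  unfold lab
  rw [Finset.sum_filter]
  refine Finset.sum_congr rfl fun i _ => ?_
  by_cases hi : sp c Q i = 1 ∧ gam c Q i = 0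
  · rw [if_pos hi, Finset.sum_filter]
    refine Finset.sum_congr rfl fun j _ => ?_
    by_cases hj : sp c Q j = a ∧ gam c Q j = 0
    · rw [if_pos hj]
      simp only [hWdef]
      rw [if_pos ⟨hi, hj⟩]
    · rw [if_neg hj]
      simp only [hWdef]
      rw [if_neg (fun h => hj h.2)]; rfl
  · rw [if_neg hi]
    refine Finset.sum_eq_zero fun j _ => ?_
    simp only [hWdef]
    rw [if_neg (fun h => hi h.1)]; rfl

open scoped Classical in
theorem core (h : Sys c μ T) {Q : ℕ} (hQ : 0 < Q) (hcQ : ∀ p q, c p = c q → p ≡ q [MOD Q])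
    {ξ f : X → ℝ} (hξ : UI ξ) (hf : UI f)
    (hfix : ∀ k, 0 < k → k ≡ 1 [MOD Q] → sp c Q k = 1 → koop μ T k (bb μ ξ) = bb μ ξ)
    {e y : Lp ℂ 2 μ} (hdec : bb μ f = bb μ ξ + e + y) {ε : ℝ} (he : ‖e‖ ≤ ε)
    (hy : ∀ z, Eg (koop μ T) z → ⟪z, y⟫_ℂ = 0)
    (hR : Tendsto (fun N => Rr μ T f N) atTop (𝓝 0)) {π : Fin r → ℕ} (hπ : Rep c π)
    {d : ℝ} (hd : 0 < d)
    (hdens : Tendsto (fun N : ℕ => ((lab c Q N 1 0).card : ℝ) / N) atTop (𝓝 d))
    {s a : ℕ} (hQs : Q ∣ s) (ha0 : 0 < a) (hsa : s ∣ a) (ha1 : sp c Q a = a)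
    {δ : ℝ} (hs : ∀ N : ℕ, (((Ioc 0 N).filter fun n => ¬ sp c Q n ∣ s).card : ℝ) ≤ δ * N)
    (κ : ℝ) (hκ : ε * d + 2 * δ < κ) :
    ∀ᶠ N : ℕ in atTop, (N : ℝ)⁻¹ * ∑ i ∈ lab c Q N 1 0,
      (⟪Hn μ T (qq c Q π) (rr c Q π) ξ f i,
        koop μ T a (Hn μ T (qq c Q π) (rr c Q π) ξ f i)⟫_ℂ).re ≤ κ := by
  obtain ⟨d₁, hseq⟩ := seq_lab c Q hπ 1 0
  have hdd : d₁ = d := tendsto_nhds_unique hseq.dens hdens
  subst hdd
  obtain ⟨d', hseq'⟩ := seq_lab c Q hπ a 0
  have hd' : 0 < d' := lab_dens' c Q hd hdens ha0 ha1 hseq'.dens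
  have hq := hseq.qpos
  have hε0 : 0 ≤ ε := (norm_nonneg _).trans he
  have hB : BM (fun x => cx f (T a x)) := hf.bm.comp (h.mp a ha0).measurable
  have hCV := CN_VN h hseq (inv_lab c Q hQ hπ 1 0 h.FG) (inv_lab c Q hQ hπ 1 0 (h.prod hq).FG) hd
    hseq' (inv_lab c Q hQ hπ a 0 h.FG) (inv_lab c Q hQ hπ a 0 (h.prod hq).FG) hd' hf.bm hB hB
  have hg1 := (Complex.continuous_re.tendsto _).comp
    (Filter.Tendsto.inner (𝕜 := ℂ) (tendsto_const_nhds (x := bb μ (fun x => ξ x * f x))) hCV)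
  rw [inner_zero_right, Complex.zero_re] at hg1
  have hg2 := (Complex.continuous_re.tendsto _).comp
    (Filter.Tendsto.inner (𝕜 := ℂ) (tendsto_const_nhds (x := bb μ f)) (tk_part h hcQ hf hy a))
  rw [inner_zero_right, Complex.zero_re] at hg2
  simp only [Function.comp_def] at hg1 hg2
  set g1 : ℕ → ℝ := fun N => (⟪bb μ (fun x => ξ x * f x),
    CN μ T (fun N => lab c Q N 1 0) (rr c Q π) (fun N => lab c Q N a 0) (rr c Q π) (cx f)
      (fun x => cx f (T a x)) (fun x => cx f (T a x)) N -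
      ((((lab c Q N a 0).card : ℝ) / N : ℝ) : ℂ) • VN μ T (qq c Q π) (fun N => lab c Q N 1 0)
        (rr c Q π) (cx f) (fun x => cx f (T a x)) (fun x => cx f (T a x)) N⟫_ℂ).re with hg1d
  set g2 : ℕ → ℝ := fun N => (⟪bb μ f, ((N : ℂ)⁻¹ * (N : ℂ)⁻¹) • ∑ i ∈ lab c Q N 1 0,
    ∑ j ∈ lab c Q N a 0, mulB μ (cx (wr T f i j)) (koop μ T (i + j) y)⟫_ℂ).re with hg2d
  set B : ℕ → ℝ := fun N => (N : ℝ)⁻¹ * ∑ i ∈ lab c Q N 1 0,
      (⟪Hn μ T (qq c Q π) (rr c Q π) ξ f i,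
        koop μ T a (Hn μ T (qq c Q π) (rr c Q π) ξ f i)⟫_ℂ).re with hBd
  have hkey : ∀ N : ℕ, 0 < N → (((lab c Q N a 0).card : ℝ) / N) * B N ≤
      Rr μ T f N + (((lab c Q N a 0).card : ℝ) / N) * (ε * (((lab c Q N 1 0).card : ℝ) / N) + 2 * δ)
        - g2 N - g1 N := by
    intro N hN
    have hN' : (0 : ℝ) < N := by exact_mod_cast hN
    have s1 : B N ≤ _ := VN_ge h hseq (inv_lab c Q hQ hπ 1 0 h.FG) hd hξ hf ha0 N
    have s2 : (((lab c Q N a 0).card : ℝ) / N) * B N ≤ _ :=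
      mul_le_mul_of_nonneg_left s1 (by positivity : (0 : ℝ) ≤ ((lab c Q N a 0).card : ℝ) / N)
    have s3 := congrFun hg1d N
    beta_reduce at s3
    rw [inner_sub_right, inner_smul_right, Complex.sub_re, Complex.re_ofReal_mul,
      CN_id h hQ hπ ha0 hf N] at s3
    have e0 : ((N : ℂ)⁻¹ * (N : ℂ)⁻¹) = (((N : ℝ)⁻¹ * (N : ℝ)⁻¹ : ℝ) : ℂ) := by push_cast; rfl
    have s4 := congrFun hg2d N
    beta_reduce at s4
    rw [e0, inner_smul_right, Complex.re_ofReal_mul, inner_sum, Complex.re_sum] at s3 s4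
    simp only [inner_sum, Complex.re_sum] at s3 s4
    -- the sum of the terms
    have s5 : ∑ i ∈ lab c Q N 1 0, ∑ j ∈ lab c Q N a 0,
        (⟪bb μ (fun x => ξ x * f x), bb μ (wr T f i j)⟫_ℂ).re ≤
        ∑ i ∈ lab c Q N 1 0, ∑ j ∈ lab c Q N a 0, tr μ T f i j +
        ((lab c Q N 1 0).card : ℝ) * ((lab c Q N a 0).card * ε) +
        ∑ i ∈ lab c Q N 1 0, ∑ j ∈ lab c Q N a 0,
          (if sp c Q (i + j) ∣ s then (0 : ℝ) else 1) -
        ∑ i ∈ lab c Q N 1 0, ∑ j ∈ lab c Q N a 0,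
          (⟪bb μ f, mulB μ (cx (wr T f i j)) (koop μ T (i + j) y)⟫_ℂ).re := by
      have t1 : ((lab c Q N 1 0).card : ℝ) * ((lab c Q N a 0).card * ε) =
          ∑ i ∈ lab c Q N 1 0, ∑ j ∈ lab c Q N a 0, ε := by
        rw [Finset.sum_const, Finset.sum_const, nsmul_eq_mul, nsmul_eq_mul]
      rw [t1, ← Finset.sum_add_distrib, ← Finset.sum_add_distrib, ← Finset.sum_sub_distrib]
      refine Finset.sum_le_sum fun i hi => ?_
      rw [← Finset.sum_add_distrib, ← Finset.sum_add_distrib, ← Finset.sum_sub_distrib]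
      refine Finset.sum_le_sum fun j hj => ?_
      rw [mem_lab] at hi hj
      refine term_le h hξ hf hdec he hi.1.1 hj.1.1 (by split_ifs <;> norm_num) ?_
      by_cases hsp : sp c Q (i + j) ∣ s
      · left
        obtain ⟨u1, u2⟩ := sum_one c Q hsa hQs hj.1.1 hi.1.1 hj.2.1 hi.2.1 hi.2.2
        rw [add_comm j i] at u1 u2
        exact hfix _ (by omega) u1 (u2 hsp)
      · right
        rw [if_neg hsp]
    have s6 : ∑ i ∈ lab c Q N 1 0, ∑ j ∈ lab c Q N a 0, tr μ T f i j ≤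
        ∑ i ∈ Ioc 0 N, ∑ j ∈ Ioc 0 N, tr μ T f i j := by
      have u1 : ∀ (s' : ℕ) (g : GG r Q), lab c Q N s' g ⊆ Ioc 0 N := fun s' g n hn =>
        mem_Ioc.2 ((mem_lab c Q).1 hn).1
      refine (Finset.sum_le_sum fun i hi => Finset.sum_le_sum_of_subset_of_nonneg (u1 a 0)
        fun j hj _ => tr_nonneg h hf ((mem_lab c Q).1 hi).1.1 (mem_Ioc.1 hj).1).trans ?_
      exact Finset.sum_le_sum_of_subset_of_nonneg (u1 1 0) fun i hi _ =>
        Finset.sum_nonneg fun j hj => tr_nonneg h hf (mem_Ioc.1 hi).1 (mem_Ioc.1 hj).1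
    have s7 : ∑ i ∈ lab c Q N 1 0, ∑ j ∈ lab c Q N a 0,
        (if sp c Q (i + j) ∣ s then (0 : ℝ) else 1) ≤ (lab c Q N a 0).card * (δ * (2 * N)) := by
      rw [Finset.sum_comm]
      have u1 : ∀ j ∈ lab c Q N a 0, ∑ i ∈ lab c Q N 1 0,
          (if sp c Q (i + j) ∣ s then (0 : ℝ) else 1) ≤ δ * (2 * N) := by
        intro j hj
        have u2 : ∑ i ∈ lab c Q N 1 0, (if sp c Q (i + j) ∣ s then (0 : ℝ) else 1) =
            (((lab c Q N 1 0).filter fun i => ¬ sp c Q (i + j) ∣ s).card : ℝ) := by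
          rw [Finset.card_filter]
          push_cast
          refine Finset.sum_congr rfl fun i _ => ?_
          by_cases hsp : sp c Q (i + j) ∣ s <;> simp [hsp]
        rw [u2]
        have u3 := hs (2 * N)
        push_cast at u3
        refine le_trans (Nat.cast_le.2 ?_) u3
        refine Finset.card_le_card_of_injOn (fun i => i + j) (fun i hi => ?_)
          (fun x _ z _ hxz => ?_)
        · rw [Finset.mem_coe, mem_filter, mem_lab] at hi
          rw [mem_lab] at hj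
          beta_reduce
          rw [Finset.mem_coe, mem_filter, mem_Ioc]
          obtain ⟨⟨⟨v1, v2⟩, _⟩, v3⟩ := hi
          exact ⟨⟨by omega, by omega⟩, v3⟩
        · exact Nat.add_right_cancel hxz
      refine (Finset.sum_le_sum u1).trans ?_
      rw [Finset.sum_const, nsmul_eq_mul]
    have hNN : (0 : ℝ) ≤ (N : ℝ)⁻¹ * (N : ℝ)⁻¹ := by positivity
    have s8 := mul_le_mul_of_nonneg_left (s5.trans (sub_le_sub_right (add_le_add (add_le_add s6
      le_rfl) s7) _)) hNN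
    have s9 : (N : ℝ)⁻¹ * (N : ℝ)⁻¹ * (∑ i ∈ Ioc 0 N, ∑ j ∈ Ioc 0 N, tr μ T f i j +
        ((lab c Q N 1 0).card : ℝ) * ((lab c Q N a 0).card * ε) +
        (lab c Q N a 0).card * (δ * (2 * N)) - ∑ i ∈ lab c Q N 1 0, ∑ j ∈ lab c Q N a 0,
          (⟪bb μ f, mulB μ (cx (wr T f i j)) (koop μ T (i + j) y)⟫_ℂ).re) =
        Rr μ T f N + (((lab c Q N a 0).card : ℝ) / N) *
          (ε * (((lab c Q N 1 0).card : ℝ) / N) + 2 * δ) - g2 N := by
      rw [s4]
      unfold Rr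
      field_simp
      ring
    rw [s9] at s8
    linarith
  -- the limit
  set η : ℝ := κ - (ε * d₁ + 2 * δ) with hη
  have hη0 : 0 < η := by rw [hη]; linarith
  have hmu : 0 < d' / 2 * (η / 4) := by positivity
  have f1 := hR.eventually (gt_mem_nhds hmu)
  have f2 := hg1.eventually (lt_mem_nhds (show -(d' / 2 * (η / 4)) < 0 by linarith))
  have f3 := hg2.eventually (lt_mem_nhds (show -(d' / 2 * (η / 4)) < 0 by linarith))
  have f4 := hseq'.dens.eventually (lt_mem_nhds (show d' / 2 < d' by linarith))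
  have f5 := (hseq.dens.const_mul ε).eventually (gt_mem_nhds
    (show ε * d₁ < ε * d₁ + η / 4 by linarith))
  filter_upwards [f1, f2, f3, f4, f5, eventually_gt_atTop 0] with N f1 f2 f3 f4 f5 hN
  have hk := hkey N hN
  have hN' : (0 : ℝ) < N := by exact_mod_cast hN
  set ℓ' : ℝ := ((lab c Q N a 0).card : ℝ) / N with hℓ'
  have hℓ0 : 0 < ℓ' := by linarith [half_pos hd']
  refine le_of_mul_le_mul_left ?_ hℓ0
  change ℓ' * B N ≤ ℓ' * κ
  have k1 : ℓ' * (ε * (((lab c Q N 1 0).card : ℝ) / N) + 2 * δ) ≤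
      ℓ' * (ε * d₁ + η / 4 + 2 * δ) :=
    mul_le_mul_of_nonneg_left (by linarith) hℓ0.le
  have k2 : d' / 2 * (η / 4) ≤ ℓ' * (η / 4) := mul_le_mul_of_nonneg_right f4.le (by positivity)
  have k3 : ℓ' * κ = ℓ' * (ε * d₁ + η / 4 + 2 * δ) + 3 * (ℓ' * (η / 4)) := by
    rw [hη]; ring
  rw [k3]
  linarith

end Pool.Agent.U744.MA
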