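import Pool.Agent.U744.MA.Eg
import Pool.Agent.K7.H83.MA.Main

/-! Decomposition of a function with values in `[0, 1]`. -/

set_option autoImplicit false
set_option linter.unusedSectionVars false

namespace Pool.Agent.U744.MA

open Finset Filter Topology MeasureTheory
open scoped InnerProductSpace ENNReal NNReal
open Pool.Agent.K7.H83.MA

/-- the real clamp -/
noncomputable def clr (z : ℂ) : ℝ := max 0 (min 1 z.re)

/-- the clamp -/
noncomputable def cl (z : ℂ) : ℂ := ((clr z : ℝ) : ℂ)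

theorem cl_zero : cl 0 = 0 := by simp [cl, clr]

theorem cl_lip : LipschitzWith 1 cl := by
  refine LipschitzWith.of_dist_le_mul fun x y => ?_
  rw [NNReal.coe_one, one_mul, dist_eq_norm, dist_eq_norm]
  unfold cl
  rw [← Complex.ofReal_sub, Complex.norm_real, Real.norm_eq_abs]
  have h1 : |clr x - clr y| ≤ |x.re - y.re| := by
    unfold clr
    rcases abs_cases (x.re - y.re) with ⟨h, h'⟩ | ⟨h, h'⟩ <;> rw [h, abs_le] <;>
      rcases le_total 1 x.re with a | a <;> rcases le_total 1 y.re with b | b <;>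
      rcases le_total 0 x.re with a' | a' <;> rcases le_total 0 y.re with b' | b' <;>
      simp only [min_eq_left, min_eq_right, max_eq_left, max_eq_right, a, b, a', b',
        zero_le_one] <;> constructor <;> linarith
  refine h1.trans ?_
  rw [← Complex.sub_re]
  exact Complex.abs_re_le_norm _

theorem clr_mem (z : ℂ) : 0 ≤ clr z ∧ clr z ≤ 1 := by
  unfold clr
  exact ⟨le_max_left _ _, max_le zero_le_one (min_le_left _ _)⟩

theorem cl_of {a : ℝ} (h0 : 0 ≤ a) (h1 : a ≤ 1) : cl (a : ℂ) = a := by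
  unfold cl clr
  rw [Complex.ofReal_re, min_eq_right h1, max_eq_right h0]

variable {X : Type*} [MeasurableSpace X] {μ : Measure X} [IsProbabilityMeasure μ]
variable {r : ℕ} {c : ℕ → Fin r} {T : ℕ → X → X}

theorem clamp_Eg (h : Sys c μ T) {z : Lp ℂ 2 μ} (hz : Eg (koop μ T) z) :
    Eg (koop μ T) (cl_lip.compLp cl_zero z) := by
  obtain ⟨Q, hQ, E, hE, hc, hy⟩ := hz
  refine ⟨Q, hQ, E, hE, hc, fun k hk hk1 hkE => ?_⟩
  have h1 := hy k hk hk1 hkE
  apply Lp.ext
  have h2 := koop_coe (h.mp k hk) (cl_lip.compLp cl_zero z)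
  have h3 := (h.mp k hk).quasiMeasurePreserving.ae (cl_lip.coeFn_compLp cl_zero z)
  have h4 := koop_coe (h.mp k hk) z
  rw [h1] at h4
  filter_upwards [h2, h3, h4, cl_lip.coeFn_compLp cl_zero z] with x h2 h3 h4 h5
  rw [h2, h3, h5]
  simp only [Function.comp_apply]
  rw [h4]

theorem re_BM {f : X → ℝ} (hf : Measurable f) (hf01 : ∀ x, 0 ≤ f x ∧ f x ≤ 1) :
    BM (fun x => (f x : ℂ)) :=
  ⟨Complex.measurable_ofReal.comp hf, 1, zero_le_one, fun x => by
    rw [Complex.norm_real, Real.norm_of_nonneg (hf01 x).1]; exact (hf01 x).2⟩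

theorem re_norm {f : X → ℝ} (hf : Measurable f) (hf01 : ∀ x, 0 ≤ f x ∧ f x ≤ 1) :
    ‖bl μ (fun x => (f x : ℂ))‖ ≤ 1 :=
  bl_norm_le (re_BM hf hf01) zero_le_one fun x => by
    rw [Complex.norm_real, Real.norm_of_nonneg (hf01 x).1]; exact (hf01 x).2

theorem decomp (h : Sys c μ T) {f : X → ℝ} (hf : Measurable f) (hf01 : ∀ x, 0 ≤ f x ∧ f x ≤ 1)
    (ε : ℝ) (hε : 0 < ε) :
    ∃ ξ : X → ℝ, Measurable ξ ∧ (∀ x, 0 ≤ ξ x ∧ ξ x ≤ 1) ∧
      Eg (koop μ T) (bl μ (fun x => (ξ x : ℂ))) ∧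
      ∃ e y : Lp ℂ 2 μ, bl μ (fun x => (f x : ℂ)) = bl μ (fun x => (ξ x : ℂ)) + e + y ∧ ‖e‖ ≤ ε ∧
        ∀ z, Eg (koop μ T) z → ⟪z, y⟫_ℂ = 0 := by
  set F : Lp ℂ 2 μ := bl μ (fun x => (f x : ℂ)) with hF
  set K : Submodule ℂ (Lp ℂ 2 μ) := (EgS (koop μ T)).topologicalClosure with hK
  have : CompleteSpace K := (Submodule.isClosed_topologicalClosure _).completeSpace_coe
  set FE : Lp ℂ 2 μ := K.starProjection F with hFE
  have hperp : ∀ z ∈ K, ⟪z, F - FE⟫_ℂ = 0 := fun z hz =>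
    (Submodule.mem_orthogonal _ _).1 (K.sub_starProjection_mem_orthogonal F) z hz
  have hFEK : FE ∈ K := K.starProjection_apply_mem F
  have hcl : FE ∈ closure (EgS (koop μ T) : Set (Lp ℂ 2 μ)) := by
    rw [← Submodule.topologicalClosure_coe]; exact hFEK
  have hη : 0 < min 1 (ε ^ 2 / 3) := lt_min one_pos (by positivity)
  obtain ⟨x', hx', hd⟩ := Metric.mem_closure_iff.1 hcl _ hη
  set η : ℝ := min 1 (ε ^ 2 / 3) with hηd
  have hη1 : η ≤ 1 := min_le_left _ _
  have hη2 : η ≤ ε ^ 2 / 3 := min_le_right _ _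
  set x : Lp ℂ 2 μ := cl_lip.compLp cl_zero x' with hx
  have hxE : Eg (koop μ T) x := clamp_Eg h hx'
  have hξm : Measurable (fun p => clr (x' p)) := by
    have h1 := (Lp.stronglyMeasurable x').measurable
    unfold clr
    exact measurable_const.max (measurable_const.min (Complex.measurable_re.comp h1))
  have hξ01 : ∀ p, 0 ≤ clr (x' p) ∧ clr (x' p) ≤ 1 := fun p => clr_mem _
  have hξx : bl μ (fun p => (clr (x' p) : ℂ)) = x := by
    apply Lp.ext
    filter_upwards [bl_coe (μ := μ) (re_BM hξm hξ01), cl_lip.coeFn_compLp cl_zero x'] with p h1 h2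
    rw [h1, h2]; rfl
  have hcF : cl_lip.compLp cl_zero F = F := by
    apply Lp.ext
    filter_upwards [bl_coe (μ := μ) (re_BM hf hf01), cl_lip.coeFn_compLp cl_zero F] with p h1 h2
    rw [h2]
    simp only [Function.comp_apply]
    rw [hF, h1]
    exact cl_of (hf01 p).1 (hf01 p).2
  have hFx : ‖F - x‖ ≤ ‖F - x'‖ := by
    have h1 := cl_lip.norm_compLp_sub_le cl_zero F x'
    rw [hcF, NNReal.coe_one, one_mul] at h1
    exact h1
  have hD : ‖F - FE‖ ≤ 1 := by
    have h1 : ‖F‖ ^ 2 = ‖FE‖ ^ 2 + ‖F - FE‖ ^ 2 := by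
      have h2 := norm_add_sq_eq_norm_sq_add_norm_sq_of_inner_eq_zero (𝕜 := ℂ) FE (F - FE)
        (hperp FE hFEK)
      rw [show FE + (F - FE) = F by abel] at h2
      nlinarith
    have h2 : ‖F‖ ≤ 1 := re_norm hf hf01
    have h3 := norm_nonneg F
    have h4 := norm_nonneg (F - FE)
    nlinarith [sq_nonneg ‖FE‖]
  have hxK : x ∈ K := Submodule.le_topologicalClosure _ hxE
  have hpy : ‖F - x‖ ^ 2 = ‖FE - x‖ ^ 2 + ‖F - FE‖ ^ 2 := by
    have h2 := norm_add_sq_eq_norm_sq_add_norm_sq_of_inner_eq_zero (𝕜 := ℂ) (FE - x) (F - FE)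
      (hperp _ (K.sub_mem hFEK hxK))
    rw [show FE - x + (F - FE) = F - x by abel] at h2
    nlinarith
  have h5 : ‖F - x'‖ ≤ ‖F - FE‖ + η := by
    have h6 : F - x' = (F - FE) + (FE - x') := by abel
    rw [h6]
    refine (norm_add_le _ _).trans ?_
    rw [dist_eq_norm] at hd
    linarith
  refine ⟨fun p => clr (x' p), hξm, hξ01, ?_, FE - x, F - FE, ?_, ?_, fun z hz => ?_⟩
  · rw [hξx]; exact hxE
  · rw [hξx]; abel
  · have h6 : ‖FE - x‖ ^ 2 ≤ ε ^ 2 := by
      have h7 := norm_nonneg (F - x)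
      have h8 := norm_nonneg (F - FE)
      have h9 : ‖F - x‖ ^ 2 ≤ (‖F - FE‖ + η) ^ 2 := by
        have := hFx.trans h5
        exact pow_le_pow_left₀ h7 this 2
      nlinarith
    exact le_of_sq_le_sq h6 hε.le
  · exact hperp z (Submodule.le_topologicalClosure _ hz)

end Pool.Agent.U744.MA
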