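import Pool.Agent.U744.MA.Core

/-! The averages do not tend to zero. -/

set_option autoImplicit false
set_option linter.unusedSectionVars false

namespace Pool.Agent.U744.MA

open Finset Filter Topology MeasureTheory
open scoped InnerProductSpace ENNReal NNReal
open Pool.Agent.K7.H83.MA

variable {X : Type*} [MeasurableSpace X] [StandardBorelSpace X] {μ : Measure X}
  [IsProbabilityMeasure μ]
variable {r : ℕ} {c : ℕ → Fin r} {T : ℕ → X → X}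

section

variable {q : Fin r → ℕ} {L : ℕ → Finset ℕ} {ρ : ℕ → ℕ} {d : ℝ}

theorem Hn_norm (h : Sys c μ T) (hs : Seq q L ρ d) {ξ f : X → ℝ} (hξ : UI ξ) (hf : UI f) (i : ℕ) :
    ‖Hn μ T q ρ ξ f i‖ ≤ 1 := by
  have hm := (h.mp _ (hs.pos i)).measurable
  exact (PI_norm _ _).trans (bb_norm (hξ.mul (hf.mul (hf.comp hm))))

/-- the mean of the correlations -/
theorem b_lim (h : Sys c μ T) (hs : Seq q L ρ d) (hI : Inv1 (koop μ T) q L ρ)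
    {ξ f : X → ℝ} (hξ : UI ξ) (hf : UI f) :
    Tendsto (fun N : ℕ => (N : ℝ)⁻¹ * ∑ i ∈ L N,
      (⟪bb μ (fun _ => 1), Hn μ T q ρ ξ f i⟫_ℂ).re) atTop
      (𝓝 (d * (⟪bb μ (fun x => ξ x * f x), PI (koop μ T) q (bb μ f)⟫_ℂ).re)) := by
  have h1 := mean_erg h.FG hs hI (bb μ f)
  have h2 := (Complex.continuous_re.tendsto _).comp
    (Filter.Tendsto.inner (𝕜 := ℂ) (tendsto_const_nhds (x := bb μ (fun x => ξ x * f x))) h1)
  rw [inner_smul_right, Complex.re_ofReal_mul] at h2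
  refine h2.congr fun N => ?_
  simp only [Function.comp_def]
  unfold avg
  have e0 : ((N : ℂ)⁻¹) = (((N : ℝ)⁻¹ : ℝ) : ℂ) := by push_cast; rfl
  rw [_root_.smul_apply, _root_.sum_apply, inner_smul_right, e0, Complex.re_ofReal_mul,
    inner_sum, Complex.re_sum]
  congr 1
  refine Finset.sum_congr rfl fun i _ => ?_
  have hm := h.mp _ (hs.pos i)
  unfold Hn
  rw [koop_bb hm hf, inner_bb (hξ.mul hf) (hf.comp hm.measurable),
    PI_one h hs.qpos (hξ.mul (hf.mul (hf.comp hm.measurable))), Complex.ofReal_re,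
    Complex.ofReal_re]
  refine integral_congr_ae (Eventually.of_forall fun x => ?_)
  simp only
  ring

theorem fin_ineq (h : Sys c μ T) (hs : Seq q L ρ d) {ξ f : X → ℝ} (hξ : UI ξ) (hf : UI f) {s : ℕ}
    (hs0 : 0 < s) (J N : ℕ) (hN : 0 < N) :
    (J * ((N : ℝ)⁻¹ * ∑ i ∈ L N, (⟪bb μ (fun _ => 1), Hn μ T q ρ ξ f i⟫_ℂ).re)) ^ 2 ≤
      (((L N).card : ℝ) / N) * (J * (((L N).card : ℝ) / N) + 2 * ∑ k ∈ range J, ((J : ℝ) - 1 - k) *
        ((N : ℝ)⁻¹ * ∑ i ∈ L N,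
          (⟪Hn μ T q ρ ξ f i, koop μ T (s ^ (k + 1)) (Hn μ T q ρ ξ f i)⟫_ℂ).re)) := by
  have hN' : (0 : ℝ) < N := by exact_mod_cast hN
  have h1 : ∀ i, (J * (⟪bb μ (fun _ => 1), Hn μ T q ρ ξ f i⟫_ℂ).re) ^ 2 ≤
      J + 2 * ∑ k ∈ range J, ((J : ℝ) - 1 - k) *
        (⟪Hn μ T q ρ ξ f i, koop μ T (s ^ (k + 1)) (Hn μ T q ρ ξ f i)⟫_ℂ).re := by
    intro i
    have h2 := fejer_le (koop μ T s) (koop_iso h hs0) (bb μ (fun _ => 1)) (Hn μ T q ρ ξ f i)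
      (koop_one h hs0) (bb_norm UI.one) J
    have h3 : ∀ k, (koop μ T s) ^ (k + 1) = koop μ T (s ^ (k + 1)) := fun k =>
      (h.FG.pow hs0 (k + 1)).symm
    simp only [h3] at h2
    have h4 := Hn_norm (μ := μ) (T := T) h hs hξ hf i
    have h5 : ‖Hn μ T q ρ ξ f i‖ ^ 2 ≤ 1 := by
      have := pow_le_pow_left₀ (norm_nonneg _) h4 2
      simpa using this
    have h6 : (J : ℝ) * ‖Hn μ T q ρ ξ f i‖ ^ 2 ≤ J := by
      have := mul_le_mul_of_nonneg_left h5 (Nat.cast_nonneg J : (0 : ℝ) ≤ J)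
      linarith
    linarith
  have h2 := sq_sum_le_card_mul_sum_sq (s := L N)
    (f := fun i => J * (⟪bb μ (fun _ => 1), Hn μ T q ρ ξ f i⟫_ℂ).re)
  have h3 : ∑ i ∈ L N, (J * (⟪bb μ (fun _ => 1), Hn μ T q ρ ξ f i⟫_ℂ).re) ^ 2 ≤
      (L N).card * J + 2 * ∑ k ∈ range J, ((J : ℝ) - 1 - k) * ∑ i ∈ L N,
        (⟪Hn μ T q ρ ξ f i, koop μ T (s ^ (k + 1)) (Hn μ T q ρ ξ f i)⟫_ℂ).re := by
    refine (Finset.sum_le_sum fun i _ => h1 i).trans (le_of_eq ?_)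
    rw [Finset.sum_add_distrib, Finset.sum_const, nsmul_eq_mul, ← Finset.mul_sum, Finset.sum_comm]
    congr 2
    refine Finset.sum_congr rfl fun k _ => ?_
    rw [Finset.mul_sum]
  have h4 := h2.trans (mul_le_mul_of_nonneg_left h3 (Nat.cast_nonneg (L N).card))
  rw [← Finset.mul_sum] at h4
  have h5 : (N : ℝ)⁻¹ ^ 2 * (J * ∑ i ∈ L N, (⟪bb μ (fun _ => 1), Hn μ T q ρ ξ f i⟫_ℂ).re) ^ 2 ≤
      (N : ℝ)⁻¹ ^ 2 * _ := mul_le_mul_of_nonneg_left h4 (by positivity)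
  calc _ = (N : ℝ)⁻¹ ^ 2 *
        (J * ∑ i ∈ L N, (⟪bb μ (fun _ => 1), Hn μ T q ρ ξ f i⟫_ℂ).re) ^ 2 := by ring
    _ ≤ _ := h5
    _ = _ := by
      have e1 : ∀ k : ℕ, ((J : ℝ) - 1 - k) * ((N : ℝ)⁻¹ * ∑ i ∈ L N,
          (⟪Hn μ T q ρ ξ f i, koop μ T (s ^ (k + 1)) (Hn μ T q ρ ξ f i)⟫_ℂ).re) =
          (N : ℝ)⁻¹ * (((J : ℝ) - 1 - k) * ∑ i ∈ L N,
          (⟪Hn μ T q ρ ξ f i, koop μ T (s ^ (k + 1)) (Hn μ T q ρ ξ f i)⟫_ℂ).re) := by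
        intro k; ring
      simp only [e1, ← Finset.mul_sum]
      field_simp

end

theorem main_pos (h : Sys c μ T) {f : X → ℝ} (hf : UI f) (hα : 0 < ∫ x, f x ∂μ) :
    ¬ Tendsto (fun N => Rr μ T f N) atTop (𝓝 0) := by
  classical
  intro hR
  set α := ∫ x, f x ∂μ with hαd
  set β₀ : ℝ := (α ^ 2 / 4) ^ 2 with hβ₀
  have hβ₀0 : 0 < β₀ := by positivity
  set ε : ℝ := min (α ^ 2 / 4) (β₀ ^ 2 / 16) with hε
  have hε0 : 0 < ε := lt_min (by positivity) (by positivity)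
  obtain ⟨ξ, hξm, hξ01, hE, e, y, hdec, he, hy⟩ := decomp (μ := μ) h hf.1 hf.2 ε hε0
  have hξ : UI ξ := ⟨hξm, hξ01⟩
  change Eg (koop μ T) (bb μ ξ) at hE
  change bb μ f = bb μ ξ + e + y at hdec
  have hxi := xi_f h hξ hf hE hdec he hy (min_le_left _ _)
  rw [← hαd] at hxi
  obtain ⟨Q, hQ, E, hSE, hEc, hEfix⟩ := hE
  obtain ⟨r', c', hc'⟩ := exists_ref c E hQ
  have h' : Sys c' μ T := ⟨h.mp, h.inv, h.one, h.mul, fun p q hp hq hpq =>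
    h.fg p q hp hq (hc' p q hpq).1⟩
  obtain ⟨π, hπ⟩ := exists_rep c'
  obtain ⟨d, hd, hdens⟩ := lab_pos c' Q hQ
  obtain ⟨s, hs0, hs1, hQs, hsc⟩ := exists_s c' Q hQ (d * β₀ ^ 2 / 64) (by positivity)
  have hfix : ∀ k, 0 < k → k ≡ 1 [MOD Q] → sp c' Q k = 1 → koop μ T k (bb μ ξ) = bb μ ξ :=
    fun k hk hk1 hk2 => fix_of c' Q hSE (fun p q hpq => (hc' p q hpq).2.1) hEfix hk hk1 hk2
  obtain ⟨d₁, hseq⟩ := seq_lab c' Q hπ 1 0
  have hdd : d₁ = d := tendsto_nhds_unique hseq.dens hdens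
  subst hdd
  have hI := inv_lab c' Q hQ hπ 1 0 h'.FG
  set β : ℝ := (⟪bb μ (fun x => ξ x * f x), PI (koop μ T) (qq c' Q π) (bb μ f)⟫_ℂ).re with hβ
  have hββ : β₀ ≤ β := by
    refine le_trans ?_ (beta_le h' hseq hI hd hξ hf)
    exact pow_le_pow_left₀ (by positivity) hxi 2
  obtain ⟨J, hJ⟩ := exists_nat_ge (2 / β₀ ^ 2)
  have hJ2 : 2 ≤ J * β₀ ^ 2 := by
    rw [div_le_iff₀ (by positivity)] at hJ
    exact hJ
  have hJ0 : (0 : ℝ) < J := by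
    by_contra hcon
    push Not at hcon
    nlinarith [sq_nonneg β₀]
  set κ : ℝ := ε * d₁ + 2 * (d₁ * β₀ ^ 2 / 64) + d₁ * β₀ ^ 2 / 32 with hκ
  have hκlt : ε * d₁ + 2 * (d₁ * β₀ ^ 2 / 64) < κ := by
    have : 0 < d₁ * β₀ ^ 2 / 32 := by positivity
    rw [hκ]; linarith
  have hκ0 : 0 ≤ κ := by positivity
  have hcore : ∀ᶠ N : ℕ in atTop, ∀ k ∈ range J, (N : ℝ)⁻¹ * ∑ i ∈ lab c' Q N 1 0,
      (⟪Hn μ T (qq c' Q π) (rr c' Q π) ξ f i,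
        koop μ T (s ^ (k + 1)) (Hn μ T (qq c' Q π) (rr c' Q π) ξ f i)⟫_ℂ).re ≤ κ := by
    refine (Filter.eventually_all_finset (range J)).2 fun k _ => ?_
    refine core h' hQ (fun p q hpq => (hc' p q hpq).2.2) hξ hf hfix hdec he hy hR hπ hd hdens hQs
      (pow_pos hs0 (k + 1)) (dvd_pow_self s (Nat.succ_ne_zero k)) (sp_pow c' Q hs0 hs1 (k + 1))
      (δ := d₁ * β₀ ^ 2 / 64) (fun N => ?_) κ hκlt
    refine le_trans (le_of_eq ?_) (hsc N)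
    congr 2
  have hb := b_lim h' hseq hI hξ hf
  rw [← hβ] at hb
  have hl1 := (hb.const_mul (J : ℝ)).pow 2
  have hl2 : Tendsto (fun N : ℕ => (((lab c' Q N 1 0).card : ℝ) / N) *
      (J * (((lab c' Q N 1 0).card : ℝ) / N) + 2 * (J * (J * κ)))) atTop
      (𝓝 (d₁ * (J * d₁ + 2 * (J * (J * κ))))) :=
    hdens.mul ((hdens.const_mul _).add_const _)
  have hfin : (J * (d₁ * β)) ^ 2 ≤ d₁ * (J * d₁ + 2 * (J * (J * κ))) := by
    refine le_of_tendsto_of_tendsto hl1 hl2 ?_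
    filter_upwards [hcore, eventually_gt_atTop 0] with N hN hN0
    refine (fin_ineq h' hseq hξ hf hs0 J N hN0).trans ?_
    refine mul_le_mul_of_nonneg_left ?_ (by positivity)
    have h1 : ∑ k ∈ range J, ((J : ℝ) - 1 - k) * ((N : ℝ)⁻¹ * ∑ i ∈ lab c' Q N 1 0,
        (⟪Hn μ T (qq c' Q π) (rr c' Q π) ξ f i,
          koop μ T (s ^ (k + 1)) (Hn μ T (qq c' Q π) (rr c' Q π) ξ f i)⟫_ℂ).re) ≤
        ∑ k ∈ range J, (J * κ) := by
      refine Finset.sum_le_sum fun k hk => ?_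
      have hkJ : ((k : ℝ) + 1) ≤ J := by
        have := Finset.mem_range.1 hk
        exact_mod_cast this
      have hk0 : (0 : ℝ) ≤ (J : ℝ) - 1 - k := by linarith
      refine (mul_le_mul_of_nonneg_left (hN k hk) hk0).trans ?_
      refine mul_le_mul_of_nonneg_right ?_ hκ0
      have : (0 : ℝ) ≤ k := Nat.cast_nonneg k
      linarith
    rw [Finset.sum_const, Finset.card_range, nsmul_eq_mul] at h1
    linarith
  -- the contradiction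
  have h1 : J * (d₁ * β ^ 2) ≤ d₁ + 2 * (J * κ) := by
    have h2 : (J * d₁) * (J * (d₁ * β ^ 2)) ≤ (J * d₁) * (d₁ + 2 * (J * κ)) := by
      calc _ = (J * (d₁ * β)) ^ 2 := by ring
        _ ≤ _ := hfin
        _ = _ := by ring
    exact le_of_mul_le_mul_left h2 (by positivity)
  have h2 : J * (d₁ * β₀ ^ 2) ≤ J * (d₁ * β ^ 2) :=
    mul_le_mul_of_nonneg_left (mul_le_mul_of_nonneg_left
      (pow_le_pow_left₀ hβ₀0.le hββ 2) hd.le) hJ0.le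
  have h3 : 2 * d₁ ≤ J * (d₁ * β₀ ^ 2) := by
    calc 2 * d₁ ≤ (J * β₀ ^ 2) * d₁ := mul_le_mul_of_nonneg_right hJ2 hd.le
      _ = _ := by ring
  have h4 : J * (d₁ * β₀ ^ 2) ≤ J * (4 * κ) := by linarith
  have h5 : d₁ * β₀ ^ 2 ≤ 4 * κ := le_of_mul_le_mul_left h4 hJ0
  have h6 : ε * d₁ ≤ β₀ ^ 2 / 16 * d₁ := mul_le_mul_of_nonneg_right (min_le_right _ _) hd.le
  have h7 : 0 < d₁ * β₀ ^ 2 := by positivity
  rw [hκ] at h5
  linarith

end Pool.Agent.U744.MA
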