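import Pool.Agent.U744.MA.Dec
import Pool.Agent.U744.MA.Col

/-! Hilbert space inequalities and positivity of the projections. -/

set_option autoImplicit false
set_option linter.unusedSectionVars false

namespace Pool.Agent.U744.MA

open Finset Filter Topology MeasureTheory
open scoped InnerProductSpace ENNReal NNReal
open Pool.Agent.K7.H83.MA

section fejer

variable {H : Type*} [NormedAddCommGroup H] [InnerProductSpace ℂ H]

theorem fejer (U : H →L[ℂ] H) (hU : ∀ x y, ⟪U x, U y⟫_ℂ = ⟪x, y⟫_ℂ) (x : H) (J : ℕ) :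
    ‖∑ j ∈ range J, (U ^ j) x‖ ^ 2 =
      J * ‖x‖ ^ 2 + 2 * ∑ k ∈ range J, ((J : ℝ) - 1 - k) * (⟪x, (U ^ (k + 1)) x⟫_ℂ).re := by
  have hn : ∀ y, ‖U y‖ = ‖y‖ := by
    intro y
    have h1 := hU y y
    rw [inner_self_eq_norm_sq_to_K, inner_self_eq_norm_sq_to_K] at h1
    have h2 : ‖U y‖ ^ 2 = ‖y‖ ^ 2 := by exact_mod_cast h1
    exact (sq_eq_sq₀ (norm_nonneg _) (norm_nonneg _)).1 h2
  induction J with
  | zero => simp
  | succ J ih =>
    have h1 : ∑ j ∈ range (J + 1), (U ^ j) x = x + U (∑ j ∈ range J, (U ^ j) x) := by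
      rw [Finset.sum_range_succ', map_sum, add_comm]
      congr 1
      refine Finset.sum_congr rfl fun j _ => ?_
      rw [pow_succ']; rfl
    have h2 := norm_add_sq (𝕜 := ℂ) x (U (∑ j ∈ range J, (U ^ j) x))
    rw [← h1, hn, ih] at h2
    have h3 : (RCLike.re ⟪x, U (∑ j ∈ range J, (U ^ j) x)⟫_ℂ : ℝ) =
        ∑ k ∈ range J, (⟪x, (U ^ (k + 1)) x⟫_ℂ).re := by
      rw [map_sum, inner_sum, map_sum]
      refine Finset.sum_congr rfl fun j _ => ?_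
      rw [pow_succ']; rfl
    rw [h3] at h2
    rw [h2, Finset.sum_range_succ]
    have h4 : ∑ k ∈ range J, (((J + 1 : ℕ) : ℝ) - 1 - k) * (⟪x, (U ^ (k + 1)) x⟫_ℂ).re =
        ∑ k ∈ range J, ((J : ℝ) - 1 - k) * (⟪x, (U ^ (k + 1)) x⟫_ℂ).re +
        ∑ k ∈ range J, (⟪x, (U ^ (k + 1)) x⟫_ℂ).re := by
      rw [← Finset.sum_add_distrib]
      refine Finset.sum_congr rfl fun j _ => ?_
      push_cast; ring
    rw [h4]
    push_cast
    ring

theorem fejer_le (U : H →L[ℂ] H) (hU : ∀ x y, ⟪U x, U y⟫_ℂ = ⟪x, y⟫_ℂ) (o x : H) (ho : U o = o)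
    (ho1 : ‖o‖ ≤ 1) (J : ℕ) :
    (J * (⟪o, x⟫_ℂ).re) ^ 2 ≤
      J * ‖x‖ ^ 2 + 2 * ∑ k ∈ range J, ((J : ℝ) - 1 - k) * (⟪x, (U ^ (k + 1)) x⟫_ℂ).re := by
  rw [← fejer U hU x J]
  have hpo : ∀ j : ℕ, (U ^ j) o = o := by
    intro j
    induction j with
    | zero => rfl
    | succ j ih => rw [pow_succ']; change U ((U ^ j) o) = o; rw [ih, ho]
  have hpi : ∀ j : ℕ, ∀ x y, ⟪(U ^ j) x, (U ^ j) y⟫_ℂ = ⟪x, y⟫_ℂ := by
    intro j
    induction j with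
    | zero => intro x y; rfl
    | succ j ih =>
      intro x y; rw [pow_succ']
      change ⟪U ((U ^ j) x), U ((U ^ j) y)⟫_ℂ = _
      rw [hU, ih]
  have h1 : ⟪o, ∑ j ∈ range J, (U ^ j) x⟫_ℂ = J * ⟪o, x⟫_ℂ := by
    rw [inner_sum, Finset.sum_congr rfl fun j _ => (show ⟪o, (U ^ j) x⟫_ℂ = ⟪o, x⟫_ℂ by
      conv_lhs => rw [← hpo j]
      exact hpi j o x), Finset.sum_const, Finset.card_range, nsmul_eq_mul]
  have h2 : (J : ℝ) * (⟪o, x⟫_ℂ).re = (⟪o, ∑ j ∈ range J, (U ^ j) x⟫_ℂ).re := by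
    rw [h1]
    simp
  rw [h2]
  have h3 : |(⟪o, ∑ j ∈ range J, (U ^ j) x⟫_ℂ).re| ≤ ‖∑ j ∈ range J, (U ^ j) x‖ := by
    refine (Complex.abs_re_le_norm _).trans ((norm_inner_le_norm _ _).trans ?_)
    calc ‖o‖ * _ ≤ 1 * ‖∑ j ∈ range J, (U ^ j) x‖ :=
          mul_le_mul_of_nonneg_right ho1 (norm_nonneg _)
      _ = _ := one_mul _
  rw [← sq_abs]
  exact pow_le_pow_left₀ (abs_nonneg _) h3 2

end fejer

variable {X : Type*} [MeasurableSpace X]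

/-- complexification -/
def cx (f : X → ℝ) : X → ℂ := fun x => (f x : ℂ)

/-- measurable functions with values in the unit interval -/
def UI (f : X → ℝ) : Prop := Measurable f ∧ ∀ x, 0 ≤ f x ∧ f x ≤ 1

theorem UI.bm {f : X → ℝ} (hf : UI f) : BM (cx f) := re_BM hf.1 hf.2

theorem UI.mul {f g : X → ℝ} (hf : UI f) (hg : UI g) : UI (fun x => f x * g x) :=
  ⟨hf.1.mul hg.1, fun x => ⟨mul_nonneg (hf.2 x).1 (hg.2 x).1,
    mul_le_one₀ (hf.2 x).2 (hg.2 x).1 (hg.2 x).2⟩⟩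

theorem UI.comp {f : X → ℝ} (hf : UI f) {S : X → X} (hS : Measurable S) : UI (fun x => f (S x)) :=
  ⟨hf.1.comp hS, fun x => hf.2 _⟩

theorem UI.sub {f : X → ℝ} (hf : UI f) : UI (fun x => 1 - f x) :=
  ⟨measurable_const.sub hf.1, fun x => ⟨by linarith [(hf.2 x).2], by linarith [(hf.2 x).1]⟩⟩

theorem UI.one : UI (fun _ : X => (1 : ℝ)) :=
  ⟨measurable_const, fun _ => ⟨zero_le_one, le_rfl⟩⟩

variable {μ : Measure X} [IsProbabilityMeasure μ]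

/-- the class of a real function -/
noncomputable def bb (μ : Measure X) [IsProbabilityMeasure μ] (f : X → ℝ) : Lp ℂ 2 μ :=
  bl μ (cx f)

theorem bb_norm {f : X → ℝ} (hf : UI f) : ‖bb μ f‖ ≤ 1 := re_norm hf.1 hf.2

theorem UI.integrable {f : X → ℝ} (hf : UI f) : Integrable f μ := by
  have := (hf.bm.integrable μ).re
  simpa [cx] using this

theorem UI.int_nonneg {f : X → ℝ} (hf : UI f) : 0 ≤ ∫ x, f x ∂μ :=
  integral_nonneg fun x => (hf.2 x).1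

theorem UI.int_le {f : X → ℝ} (hf : UI f) : ∫ x, f x ∂μ ≤ 1 := by
  have h1 := integral_mono (μ := μ) hf.integrable (integrable_const (1 : ℝ)) fun x => (hf.2 x).2
  simpa using h1

theorem inner_bb {f g : X → ℝ} (hf : UI f) (hg : UI g) :
    ⟪bb μ f, bb μ g⟫_ℂ = ((∫ x, f x * g x ∂μ : ℝ) : ℂ) := by
  unfold bb
  rw [inner_bl hf.bm hg.bm, ← integral_complex_ofReal]
  refine integral_congr_ae (Eventually.of_forall fun x => ?_)
  simp [cx]

theorem bb_add {f g : X → ℝ} (hf : UI f) (hg : UI g) :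
    bb μ (fun x => f x + g x) = bb μ f + bb μ g := by
  unfold bb
  rw [← bl_add hf.bm hg.bm]
  congr 1
  funext x
  simp [cx]

theorem bb_congr {f g : X → ℝ} (hf : UI f) (hg : UI g) (h : f =ᵐ[μ] g) : bb μ f = bb μ g := by
  refine bl_congr hf.bm hg.bm ?_
  filter_upwards [h] with x hx
  simp [cx, hx]

variable {r : ℕ} {c : ℕ → Fin r} {T : ℕ → X → X} {q : Fin r → ℕ} {L : ℕ → Finset ℕ} {ρ : ℕ → ℕ}
  {d : ℝ}

theorem koop_bb {n : ℕ} (h : MeasurePreserving (T n) μ μ) {f : X → ℝ} (hf : UI f) :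
    koop μ T n (bb μ f) = bb μ (fun x => f (T n x)) := koop_bl h hf.bm

theorem mulB_bb {f g : X → ℝ} (hf : UI f) (hg : UI g) :
    mulB μ (cx f) (bb μ g) = bb μ (fun x => f x * g x) := by
  unfold bb
  rw [mulB_bl hf.bm hg.bm]
  congr 1
  funext x
  simp [cx]

theorem inner_mulB {w g : X → ℝ} (hw : UI w) (hg : UI g) (z : Lp ℂ 2 μ) :
    ⟪bb μ g, mulB μ (cx w) z⟫_ℂ = ⟪bb μ (fun x => w x * g x), z⟫_ℂ := by
  rw [L2.inner_def, L2.inner_def]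
  refine integral_congr_ae ?_
  filter_upwards [bl_coe (μ := μ) hg.bm, bl_coe (μ := μ) (hw.mul hg).bm,
    mulB_coe (μ := μ) hw.bm z] with x h1 h2 h3
  unfold bb
  rw [RCLike.inner_apply, RCLike.inner_apply, h1, h2, h3]
  simp only [cx, Complex.ofReal_mul, map_mul, Complex.conj_ofReal]
  ring

theorem koop_iso (h : Sys c μ T) {n : ℕ} (hn : 0 < n) (x y : Lp ℂ 2 μ) :
    ⟪koop μ T n x, koop μ T n y⟫_ℂ = ⟪x, y⟫_ℂ := by
  have h5 : star (koop μ T n) * koop μ T n = 1 := Unitary.star_mul_self_of_mem (h.FG.uni n hn)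
  rw [← ContinuousLinearMap.adjoint_inner_right]
  have h6 : (ContinuousLinearMap.adjoint (koop μ T n)) (koop μ T n y) =
      (star (koop μ T n) * koop μ T n) y := rfl
  rw [h6, h5]; rfl

theorem koop_one (h : Sys c μ T) {n : ℕ} (hn : 0 < n) :
    koop μ T n (bb μ fun _ => 1) = bb μ fun _ => 1 := koop_bb (h.mp n hn) UI.one

theorem one_IV (h : Sys c μ T) (hq : ∀ i, 0 < q i) : bb μ (fun _ => 1) ∈ IV (koop μ T) q := by
  rw [mem_IV]
  exact fun i => koop_one h (hq i)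

theorem avg_bb (h : Sys c μ T) (hs : Seq q L ρ d) {a : ℕ} (ha : 0 < a) {g g' : X → ℝ} (hg : UI g)
    (hg' : UI g') (N : ℕ) :
    ⟪bb μ g, koop μ T a (avg (koop μ T) L ρ N (bb μ g'))⟫_ℂ =
      (((N : ℝ)⁻¹ * ∑ n ∈ L N, ∫ x, g x * g' (T (ρ n) (T a x)) ∂μ : ℝ) : ℂ) := by
  unfold avg
  rw [_root_.smul_apply, _root_.sum_apply, map_smul, map_sum, inner_smul_right, inner_sum]
  push_cast
  congr 1
  refine Finset.sum_congr rfl fun n _ => ?_
  have h1 := h.mp _ (hs.pos n)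
  rw [koop_bb h1 hg', koop_bb (h.mp a ha) (hg'.comp h1.measurable),
    inner_bb hg ((hg'.comp h1.measurable).comp (h.mp a ha).measurable)]

theorem pos_PI (h : Sys c μ T) (hs : Seq q L ρ d) (hI : Inv1 (koop μ T) q L ρ) (hd : 0 < d)
    {a : ℕ} (ha : 0 < a) {g g' : X → ℝ} (hg : UI g) (hg' : UI g') :
    0 ≤ (⟪bb μ g, koop μ T a (PI (koop μ T) q (bb μ g'))⟫_ℂ).re := by
  have h1 := mean_erg h.FG hs hI (bb μ g')
  have h2 := ((koop μ T a).continuous.tendsto _).comp h1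
  have h3 : Tendsto (fun N => (⟪bb μ g, koop μ T a (avg (koop μ T) L ρ N (bb μ g'))⟫_ℂ).re) atTop
      (𝓝 (⟪bb μ g, koop μ T a ((d : ℂ) • PI (koop μ T) q (bb μ g'))⟫_ℂ).re) :=
    (Complex.continuous_re.tendsto _).comp (Filter.Tendsto.inner tendsto_const_nhds h2)
  have h4 : 0 ≤ (⟪bb μ g, koop μ T a ((d : ℂ) • PI (koop μ T) q (bb μ g'))⟫_ℂ).re := by
    refine ge_of_tendsto' h3 fun N => ?_
    rw [avg_bb h hs ha hg hg' N, Complex.ofReal_re]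
    refine mul_nonneg (by positivity) (Finset.sum_nonneg fun n _ => integral_nonneg fun x => ?_)
    exact mul_nonneg (hg.2 _).1 (hg'.2 _).1
  rw [map_smul, inner_smul_right, Complex.re_ofReal_mul] at h4
  exact nonneg_of_mul_nonneg_right h4 hd

theorem PI_inner (h : Sys c μ T) (hq : ∀ i, 0 < q i) {a : ℕ} (ha : 0 < a) (x : Lp ℂ 2 μ) :
    ⟪x, koop μ T a (PI (koop μ T) q x)⟫_ℂ =
      ⟪PI (koop μ T) q x, koop μ T a (PI (koop μ T) q x)⟫_ℂ := by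
  have h1 : koop μ T a (PI (koop μ T) q x) ∈ IV (koop μ T) q := IV_map h.FG hq ha (PI_mem _ _)
  conv_lhs => rw [← PI_of_mem h1]
  rw [← PI_self]

theorem split_PI (h : Sys c μ T) (hs : Seq q L ρ d) (hI : Inv1 (koop μ T) q L ρ) (hd : 0 < d)
    {a : ℕ} (ha : 0 < a) {ξ f : X → ℝ} (hξ : UI ξ) (hf : UI f) :
    (⟪PI (koop μ T) q (bb μ (fun x => ξ x * f x)),
      koop μ T a (PI (koop μ T) q (bb μ (fun x => ξ x * f x)))⟫_ℂ).re ≤
      (⟪bb μ (fun x => ξ x * f x), koop μ T a (PI (koop μ T) q (bb μ f))⟫_ℂ).re := by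
  have h1 : bb μ f = bb μ (fun x => ξ x * f x) + bb μ (fun x => (1 - ξ x) * f x) := by
    rw [← bb_add (hξ.mul hf) (hξ.sub.mul hf)]
    congr 1
    funext x
    ring
  rw [h1, map_add, map_add, inner_add_right, Complex.add_re, ← PI_inner h hs.qpos ha]
  have := pos_PI h hs hI hd ha (hξ.mul hf) (hξ.sub.mul hf)
  linarith

theorem one_inner {f : X → ℝ} (hf : UI f) :
    ⟪bb μ (fun _ => 1), bb μ f⟫_ℂ = ((∫ x, f x ∂μ : ℝ) : ℂ) := by
  rw [inner_bb UI.one hf]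
  simp

theorem PI_one (h : Sys c μ T) (hq : ∀ i, 0 < q i) {f : X → ℝ} (hf : UI f) :
    ⟪bb μ (fun _ => 1), PI (koop μ T) q (bb μ f)⟫_ℂ = ((∫ x, f x ∂μ : ℝ) : ℂ) := by
  rw [← PI_self, PI_of_mem (one_IV h hq), one_inner hf]

theorem beta_le (h : Sys c μ T) (hs : Seq q L ρ d) (hI : Inv1 (koop μ T) q L ρ) (hd : 0 < d)
    {ξ f : X → ℝ} (hξ : UI ξ) (hf : UI f) :
    (∫ x, ξ x * f x ∂μ) ^ 2 ≤
      (⟪bb μ (fun x => ξ x * f x), PI (koop μ T) q (bb μ f)⟫_ℂ).re := by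
  have h1 := split_PI h hs hI hd one_pos hξ hf
  have h0 : koop μ T 1 = 1 := h.FG.one
  rw [h0] at h1
  refine le_trans ?_ h1
  set z := PI (koop μ T) q (bb μ (fun x => ξ x * f x)) with hz
  have h2 : (⟪z, (1 : Lp ℂ 2 μ →L[ℂ] Lp ℂ 2 μ) z⟫_ℂ).re = ‖z‖ ^ 2 := by
    change (⟪z, z⟫_ℂ).re = _
    rw [inner_self_eq_norm_sq_to_K]
    norm_cast
  rw [h2]
  have h3 := PI_one h hs.qpos (hξ.mul hf)
  have h4 : |∫ x, ξ x * f x ∂μ| ≤ ‖z‖ := by
    have h5 := norm_inner_le_norm (𝕜 := ℂ) (bb μ fun _ => (1 : ℝ)) z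
    rw [hz, h3, Complex.norm_real, Real.norm_eq_abs, ← hz] at h5
    refine h5.trans ?_
    calc _ ≤ 1 * ‖z‖ := mul_le_mul_of_nonneg_right (bb_norm UI.one) (norm_nonneg _)
      _ = _ := one_mul _
  rw [← sq_abs]
  exact pow_le_pow_left₀ (abs_nonneg _) h4 2

theorem one_Eg (h : Sys c μ T) : Eg (koop μ T) (bb μ fun _ => 1) :=
  ⟨1, one_pos, fun _ => False, by
    unfold Spa
    refine summable_zero.congr fun p => ?_
    rw [if_neg (fun h => h)], fun p _ _ => Nat.coprime_one_right p, fun k hk _ _ => koop_one h hk⟩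

/-- the correlation of the function with its nearly periodic part -/
theorem xi_f (h : Sys c μ T) {ξ f : X → ℝ} (hξ : UI ξ) (hf : UI f)
    (hE : Eg (koop μ T) (bb μ ξ)) {e y : Lp ℂ 2 μ} (hd : bb μ f = bb μ ξ + e + y) {ε : ℝ}
    (he : ‖e‖ ≤ ε) (hy : ∀ z, Eg (koop μ T) z → ⟪z, y⟫_ℂ = 0)
    (hε : ε ≤ (∫ x, f x ∂μ) ^ 2 / 4) : (∫ x, f x ∂μ) ^ 2 / 4 ≤ ∫ x, ξ x * f x ∂μ := by
  set α := ∫ x, f x ∂μ with hα
  have hα0 : 0 ≤ α := hf.int_nonneg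
  have hα1 : α ≤ 1 := hf.int_le
  have hε0 : 0 ≤ ε := (norm_nonneg _).trans he
  have hre : ∀ z : Lp ℂ 2 μ, ‖z‖ ≤ 1 → |(⟪z, e⟫_ℂ).re| ≤ ε := by
    intro z hz
    refine (Complex.abs_re_le_norm _).trans ((norm_inner_le_norm _ _).trans ?_)
    calc ‖z‖ * ‖e‖ ≤ 1 * ε := mul_le_mul hz he (norm_nonneg _) zero_le_one
      _ = ε := one_mul _
  -- the mean of `ξ`
  have h1 : α - ε ≤ ∫ x, ξ x ∂μ := by
    have h2 := one_inner (μ := μ) hf
    rw [hd, inner_add_right, inner_add_right, hy _ (one_Eg h), add_zero, one_inner hξ] at h2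
    have h3 := congrArg Complex.re h2
    rw [Complex.add_re, Complex.ofReal_re, Complex.ofReal_re] at h3
    have h4 := (abs_le.1 (hre _ (bb_norm (μ := μ) UI.one))).2
    linarith
  have h2 : α - ε ≤ ‖bb μ ξ‖ := by
    refine h1.trans ?_
    have h5 := norm_inner_le_norm (𝕜 := ℂ) (bb μ fun _ => (1 : ℝ)) (bb μ ξ)
    rw [one_inner hξ, Complex.norm_real, Real.norm_eq_abs] at h5
    refine (le_abs_self _).trans (h5.trans ?_)
    calc _ ≤ 1 * ‖bb μ ξ‖ := mul_le_mul_of_nonneg_right (bb_norm UI.one) (norm_nonneg _)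
      _ = _ := one_mul _
  have h3 : ∫ x, ξ x * f x ∂μ = ‖bb μ ξ‖ ^ 2 + (⟪bb μ ξ, e⟫_ℂ).re := by
    have h4 := inner_bb (μ := μ) hξ hf
    rw [hd, inner_add_right, inner_add_right, hy _ hE, add_zero] at h4
    have h5 := congrArg Complex.re h4
    rw [Complex.add_re, Complex.ofReal_re, inner_self_eq_norm_sq_to_K] at h5
    rw [← h5]
    norm_cast
  have h4 := (abs_le.1 (hre _ (bb_norm (μ := μ) hξ))).1
  rw [h3]
  have h5 : (3 / 4 * α) ≤ ‖bb μ ξ‖ := by nlinarith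
  have h6 : (3 / 4 * α) ^ 2 ≤ ‖bb μ ξ‖ ^ 2 := pow_le_pow_left₀ (by positivity) h5 2
  nlinarith

end Pool.Agent.U744.MA
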