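import Pool.Agent.U744.MA.Hil

/-! The main term. -/

set_option autoImplicit false
set_option linter.unusedSectionVars false

namespace Pool.Agent.U744.MA

open Finset Filter Topology MeasureTheory
open scoped InnerProductSpace ENNReal NNReal
open Pool.Agent.K7.H83.MA

variable {X : Type*} [MeasurableSpace X] [StandardBorelSpace X] {μ : Measure X}
  [IsProbabilityMeasure μ]
variable {r : ℕ} {c : ℕ → Fin r} {T : ℕ → X → X}

/-- the real weights -/
def wr (T : ℕ → X → X) (f : X → ℝ) (i j : ℕ) : X → ℝ :=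
  fun x => f (T i x) * (f (T j x) * f (T (i * j) x))

theorem wr_UI (h : Sys c μ T) {f : X → ℝ} (hf : UI f) {i j : ℕ} (hi : 0 < i) (hj : 0 < j) :
    UI (wr T f i j) :=
  (hf.comp (h.mp i hi).measurable).mul ((hf.comp (h.mp j hj).measurable).mul
    (hf.comp (h.mp _ (Nat.mul_pos hi hj)).measurable))

/-- one term of the averages -/
noncomputable def tr (μ : Measure X) (T : ℕ → X → X) (f : X → ℝ) (i j : ℕ) : ℝ :=
  ∫ x, f x * (wr T f i j x * f (T (i + j) x)) ∂μ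

/-- the real averages -/
noncomputable def Rr (μ : Measure X) (T : ℕ → X → X) (f : X → ℝ) (N : ℕ) : ℝ :=
  ((N : ℝ)⁻¹ * (N : ℝ)⁻¹) * ∑ i ∈ Ioc 0 N, ∑ j ∈ Ioc 0 N, tr μ T f i j

theorem tr_nonneg (h : Sys c μ T) {f : X → ℝ} (hf : UI f) {i j : ℕ} (hi : 0 < i) (hj : 0 < j) :
    0 ≤ tr μ T f i j :=
  (hf.mul ((wr_UI h hf hi hj).mul (hf.comp (h.mp (i + j) (by omega)).measurable))).int_nonneg

theorem term_le (h : Sys c μ T) {ξ f : X → ℝ} (hξ : UI ξ) (hf : UI f) {e y : Lp ℂ 2 μ}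
    (hd : bb μ f = bb μ ξ + e + y) {ε : ℝ} (he : ‖e‖ ≤ ε) {i j : ℕ} (hi : 0 < i) (hj : 0 < j)
    {b : ℝ} (hb : 0 ≤ b) (hb' : koop μ T (i + j) (bb μ ξ) = bb μ ξ ∨ 1 ≤ b) :
    (⟪bb μ (fun x => ξ x * f x), bb μ (wr T f i j)⟫_ℂ).re ≤
      tr μ T f i j + ε + b -
        (⟪bb μ f, mulB μ (cx (wr T f i j)) (koop μ T (i + j) y)⟫_ℂ).re := by
  have hw := wr_UI h hf hi hj
  have hij : 0 < i + j := by omega
  have hg := hw.mul hf
  have hm := (h.mp _ hij)
  rw [inner_mulB hw hf]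
  have h1 : (⟪bb μ (fun x => wr T f i j x * f x), koop μ T (i + j) (bb μ f)⟫_ℂ).re =
      tr μ T f i j := by
    rw [koop_bb hm hf, inner_bb hg (hf.comp hm.measurable), Complex.ofReal_re]
    unfold tr
    refine integral_congr_ae (Eventually.of_forall fun x => ?_)
    simp only
    ring
  have h2 : (⟪bb μ (fun x => wr T f i j x * f x), koop μ T (i + j) (bb μ f)⟫_ℂ).re =
      (⟪bb μ (fun x => wr T f i j x * f x), koop μ T (i + j) (bb μ ξ)⟫_ℂ).re +
      (⟪bb μ (fun x => wr T f i j x * f x), koop μ T (i + j) e⟫_ℂ).re +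
      (⟪bb μ (fun x => wr T f i j x * f x), koop μ T (i + j) y⟫_ℂ).re := by
    rw [hd, map_add, map_add, inner_add_right, inner_add_right, Complex.add_re, Complex.add_re]
  have h3 : |(⟪bb μ (fun x => wr T f i j x * f x), koop μ T (i + j) e⟫_ℂ).re| ≤ ε := by
    refine (Complex.abs_re_le_norm _).trans ((norm_inner_le_norm _ _).trans ?_)
    rw [koop_norm hm]
    calc _ ≤ 1 * ε := mul_le_mul (bb_norm hg) he (norm_nonneg _) zero_le_one
      _ = ε := one_mul _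
  have h4 := (abs_le.1 h3).1
  have h5 : (⟪bb μ (fun x => ξ x * f x), bb μ (wr T f i j)⟫_ℂ).re =
      (⟪bb μ (fun x => wr T f i j x * f x), bb μ ξ⟫_ℂ).re := by
    rw [inner_bb (hξ.mul hf) hw, inner_bb hg hξ, Complex.ofReal_re, Complex.ofReal_re]
    refine integral_congr_ae (Eventually.of_forall fun x => ?_)
    simp only
    ring
  rcases hb' with hb' | hb'
  · rw [hb'] at h2
    linarith
  · have h6 : (⟪bb μ (fun x => ξ x * f x), bb μ (wr T f i j)⟫_ℂ).re ≤ 1 := by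
      rw [inner_bb (hξ.mul hf) hw, Complex.ofReal_re]
      exact ((hξ.mul hf).mul hw).int_le
    have h7 : 0 ≤ (⟪bb μ (fun x => wr T f i j x * f x), koop μ T (i + j) (bb μ ξ)⟫_ℂ).re := by
      rw [koop_bb hm hξ, inner_bb hg (hξ.comp hm.measurable), Complex.ofReal_re]
      exact (hg.mul (hξ.comp hm.measurable)).int_nonneg
    linarith

theorem ae_of_u1 (h : Sys c μ T) {m b : ℕ} (hm : 0 < m) (hb : 0 < b)
    (hu : koop μ T m = koop μ T b) {F : X → ℂ} (hF : BM F) :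
    ∀ᵐ x ∂μ, F (T m x) = F (T b x) := by
  have h1 : koop μ T m (bl μ F) = koop μ T b (bl μ F) := by rw [hu]
  rw [koop_bl (h.mp m hm) hF, koop_bl (h.mp b hb) hF] at h1
  filter_upwards [bl_coe (μ := μ) (hF.comp (h.mp m hm).measurable),
    bl_coe (μ := μ) (hF.comp (h.mp b hb).measurable)] with x h2 h3
  rw [← h2, ← h3, h1]

theorem tt_zero (Q : ℕ) (π : Fin r → ℕ) : tt Q π (0 : GG r Q) = 1 := by
  unfold tt
  refine Finset.prod_eq_one fun i _ => ?_
  have : ((0 : GG r Q).2 i).val = 0 := by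
    change (0 : ZMod (Nat.totient Q)).val = 0
    exact ZMod.val_zero
  rw [this, pow_zero]

theorem CN_id (h : Sys c μ T) {Q : ℕ} (hQ : 0 < Q) {π : Fin r → ℕ} (hπ : Rep c π) {a : ℕ}
    (ha : 0 < a) {f : X → ℝ} (hf : UI f) (N : ℕ) :
    CN μ T (fun N => lab c Q N 1 0) (rr c Q π) (fun N => lab c Q N a 0) (rr c Q π) (cx f)
      (fun x => cx f (T a x)) (fun x => cx f (T a x)) N =
      ((N : ℂ)⁻¹ * (N : ℂ)⁻¹) • ∑ i ∈ lab c Q N 1 0, ∑ j ∈ lab c Q N a 0,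
        bb μ (wr T f i j) := by
  have hr := rr_pos c Q hπ.pos
  have hB : BM (fun x => cx f (T a x)) := hf.bm.comp (h.mp a ha).measurable
  symm
  unfold CN avg
  rw [mul_smul]
  congr 1
  rw [Finset.smul_sum]
  refine Finset.sum_congr rfl fun i hi => ?_
  rw [_root_.smul_apply, map_smul, _root_.sum_apply, map_sum]
  congr 1
  refine Finset.sum_congr rfl fun j hj => ?_
  have hmi := (h.mp _ (hr i)).measurable
  have hmj := (h.mp _ (hr j)).measurable
  unfold gv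
  rw [koop_bl (h.mp _ (hr j)) (hB.mul (hB.comp hmi)),
    mulB_bl (hf.bm.comp hmi) ((hB.comp hmj).mul ((hB.comp hmi).comp hmj))]
  rw [mem_lab] at hi hj
  have hu1 := u_lab c Q h.FG hπ hQ hi.1.1
  rw [hi.2.1, hi.2.2, tt_zero, mul_one, h.FG.one, one_mul] at hu1
  have hu2 := u_lab c Q h.FG hπ hQ hj.1.1
  rw [hj.2.1, hj.2.2, tt_zero, mul_one] at hu2
  have hij := Nat.mul_pos hi.1.1 hj.1.1
  have hrr := Nat.mul_pos (hr i) (hr j)
  have e1 := ae_of_u1 h hi.1.1 (hr i) hu1 hf.bm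
  have e2 := ae_of_u h hj.1.1 ha (hr j) (by rw [hu2, h.FG.comm ha (hr j)]) hf.bm
  have hu3 : koop μ T (i * j) = koop μ T (rr c Q π i * rr c Q π j) * koop μ T a := by
    rw [h.FG.mul i j hi.1.1 hj.1.1, hu1, hu2, h.FG.mul _ _ (hr i) (hr j), h.FG.comm ha (hr j),
      mul_assoc]
  have e3 := ae_of_u h hij ha hrr hu3 hf.bm
  have e4 := h.mul _ _ (hr i) (hr j)
  refine bl_congr (wr_UI h hf hi.1.1 hj.1.1).bm
    ((hf.bm.comp hmi).mul ((hB.comp hmj).mul ((hB.comp hmi).comp hmj))) ?_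
  filter_upwards [e1, e2, e3, e4] with x e1 e2 e3 e4
  have e5 : cx (wr T f i j) x = cx f (T i x) * (cx f (T j x) * cx f (T (i * j) x)) := by
    simp [cx, wr]
  rw [e5, e1, e2, e3, e4]

/-- the vectors of the main term -/
noncomputable def Hn (μ : Measure X) [IsProbabilityMeasure μ] (T : ℕ → X → X) (q : Fin r → ℕ)
    (ρ : ℕ → ℕ) (ξ f : X → ℝ) (i : ℕ) : Lp ℂ 2 μ :=
  PI (koop μ T) q (bb μ (fun x => ξ x * (f x * f (T (ρ i) x))))

variable {q : Fin r → ℕ} {L : ℕ → Finset ℕ} {ρ : ℕ → ℕ} {d : ℝ}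

theorem VN_ge (h : Sys c μ T) (hs : Seq q L ρ d) (hI : Inv1 (koop μ T) q L ρ) (hd : 0 < d)
    {ξ f : X → ℝ} (hξ : UI ξ) (hf : UI f) {a : ℕ} (ha : 0 < a) (N : ℕ) :
    (N : ℝ)⁻¹ * ∑ i ∈ L N, (⟪Hn μ T q ρ ξ f i, koop μ T a (Hn μ T q ρ ξ f i)⟫_ℂ).re ≤
      (⟪bb μ (fun x => ξ x * f x), VN μ T q L ρ (cx f) (fun x => cx f (T a x))
        (fun x => cx f (T a x)) N⟫_ℂ).re := by
  unfold VN
  have e0 : ((N : ℂ)⁻¹) = (((N : ℝ)⁻¹ : ℝ) : ℂ) := by push_cast; rfl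
  rw [inner_smul_right, e0, Complex.re_ofReal_mul, inner_sum, Complex.re_sum]
  refine mul_le_mul_of_nonneg_left (Finset.sum_le_sum fun i _ => ?_) (by positivity)
  have hm := (h.mp _ (hs.pos i)).measurable
  have h1 : gv μ T (ρ i) (fun x => cx f (T a x)) (fun x => cx f (T a x)) =
      koop μ T a (bb μ (fun x => f x * f (T (ρ i) x))) := by
    rw [← koop_gv h (hs.pos i) ha hf.bm hf.bm]
    unfold gv bb
    congr 2
    funext x
    simp [cx]
  rw [h1, PI_comm h.FG hs.qpos ha]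
  have h2 := inner_mulB (μ := μ) (hf.comp hm) (hξ.mul hf)
    (koop μ T a (PI (koop μ T) q (bb μ (fun x => f x * f (T (ρ i) x)))))
  have h3 : (cx fun x => f (T (ρ i) x)) = fun x => cx f (T (ρ i) x) := rfl
  rw [h3] at h2
  rw [h2]
  have h4 : (fun x => f (T (ρ i) x) * (ξ x * f x)) = fun x => ξ x * (f x * f (T (ρ i) x)) := by
    funext x; ring
  rw [h4]
  exact split_PI h hs hI hd ha hξ (hf.mul (hf.comp hm))

end Pool.Agent.U744.MA
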